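import Pool.Agent.H8.AV3.Stmts7
import Pool.Agent.H28.AV3B.LMU3
import Pool.Agent.H19.AV3B.LVA

/-!
# AV3C, module AVL3: the average of the weights over the good forms of one type
-/

set_option autoImplicit false

namespace Pool.Agent.H98.AV3C

open Polynomial Matrix Pool.AVR Pool.AV3

namespace AVL3

section Real

theorem two_lower (x y a b m δ : ℝ) (hδ : 0 ≤ δ) (hm0 : 0 ≤ m) (hx0 : 0 ≤ x) (hx1 : x ≤ 1)
    (hy0 : 0 ≤ y) (hxy : x - m * δ ≤ y) (ha0 : 0 ≤ a) (ha1 : a ≤ 1) (hb0 : 0 ≤ b)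
    (hab : a - δ ≤ b) : a * x - (m + 1) * δ ≤ b * y := by
  have hmδ : 0 ≤ m * δ := mul_nonneg hm0 hδ
  have hmin1 : min b a * min y x ≤ b * y :=
    mul_le_mul (min_le_left _ _) (min_le_left _ _) (le_min hy0 hx0) hb0
  have h1 : a - δ ≤ min b a := le_min hab (by linarith)
  have h2 : x - m * δ ≤ min y x := le_min hxy (by linarith)
  have h3 : 0 ≤ min y x := le_min hy0 hx0
  have h4 : min y x ≤ 1 := (min_le_right _ _).trans hx1
  have h5 : (a - δ) * min y x ≤ min b a * min y x := mul_le_mul_of_nonneg_right h1 h3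
  have h6 : a * (x - m * δ) ≤ a * min y x := mul_le_mul_of_nonneg_left h2 ha0
  have h7 : a * (m * δ) ≤ 1 * (m * δ) := mul_le_mul_of_nonneg_right ha1 hmδ
  have h8 : δ * min y x ≤ δ * 1 := mul_le_mul_of_nonneg_left h4 hδ
  linarith

theorem prod_lower {ι : Type} (S : Finset ι) (r L : ι → ℝ) (δ : ℝ) (hδ : 0 ≤ δ)
    (hr0 : ∀ P ∈ S, 0 ≤ r P) (hr1 : ∀ P ∈ S, r P ≤ 1) (hL0 : ∀ P ∈ S, 0 ≤ L P)
    (hL : ∀ P ∈ S, r P - δ ≤ L P) : ∏ P ∈ S, r P - S.card * δ ≤ ∏ P ∈ S, L P := by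
  classical
  induction S using Finset.induction_on with
  | empty => simp
  | insert a S ha ih =>
    rw [Finset.prod_insert ha, Finset.prod_insert ha, Finset.card_insert_of_notMem ha]
    have ih' := ih (fun P hP => hr0 P (Finset.mem_insert_of_mem hP))
      (fun P hP => hr1 P (Finset.mem_insert_of_mem hP))
      (fun P hP => hL0 P (Finset.mem_insert_of_mem hP))
      (fun P hP => hL P (Finset.mem_insert_of_mem hP))
    have hx0 : 0 ≤ ∏ P ∈ S, r P := Finset.prod_nonneg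
      (fun P hP => hr0 P (Finset.mem_insert_of_mem hP))
    have hx1 : ∏ P ∈ S, r P ≤ 1 := Finset.prod_le_one
      (fun P hP => hr0 P (Finset.mem_insert_of_mem hP))
      (fun P hP => hr1 P (Finset.mem_insert_of_mem hP))
    have hy0 : 0 ≤ ∏ P ∈ S, L P := Finset.prod_nonneg
      (fun P hP => hL0 P (Finset.mem_insert_of_mem hP))
    push_cast
    exact two_lower _ _ _ _ _ _ hδ (Nat.cast_nonneg _) hx0 hx1 hy0 ih'
      (hr0 a (Finset.mem_insert_self _ _)) (hr1 a (Finset.mem_insert_self _ _))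
      (hL0 a (Finset.mem_insert_self _ _)) (hL a (Finset.mem_insert_self _ _))

theorem prod_le_two {ι : Type} (S : Finset ι) (L : ι → ℝ) (hL0 : ∀ P ∈ S, 0 ≤ L P)
    (hL : ∀ P ∈ S, L P ≤ 2) : ∏ P ∈ S, L P ≤ 2 ^ S.card := by
  rw [← Finset.prod_const]
  exact Finset.prod_le_prod hL0 hL

theorem prod_one_small {ι : Type} [DecidableEq ι] (S : Finset ι) (a : ι) (ha : a ∈ S)
    (L : ι → ℝ) (δ : ℝ) (hL0 : ∀ P ∈ S, 0 ≤ L P) (hL : ∀ P ∈ S, L P ≤ 2) (hδ : L a ≤ δ) :
    ∏ P ∈ S, L P ≤ δ * 2 ^ S.card := by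
  rw [← Finset.mul_prod_erase S L ha]
  have h1 : ∏ P ∈ S.erase a, L P ≤ 2 ^ (S.erase a).card := by
    refine prod_le_two _ _ (fun P hP => ?_) (fun P hP => ?_)
    · exact hL0 P (Finset.mem_of_mem_erase hP)
    · exact hL P (Finset.mem_of_mem_erase hP)
  have h2 : (2 : ℝ) ^ (S.erase a).card ≤ 2 ^ S.card :=
    pow_le_pow_right₀ (by norm_num) (Finset.card_le_card (Finset.erase_subset _ _))
  have h3 : 0 ≤ ∏ P ∈ S.erase a, L P :=
    Finset.prod_nonneg (fun P hP => hL0 P (Finset.mem_of_mem_erase hP))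
  exact mul_le_mul hδ (h1.trans h2) h3 ((hL0 a ha).trans hδ)

end Real

section Cover

open Classical in
/-- A covering bound. -/
theorem cover {α ι : Type} (V G B1 B2 B3 B4 : Set α) (hV : V.Finite) (hGV : G ⊆ V)
    (h1V : B1 ⊆ V) (h2V : B2 ⊆ V) (h3V : B3 ⊆ V) (h4V : B4 ⊆ V)
    (S : Finset ι) (BS : ι → Set α) (hBS : ∀ P ∈ S, BS P ⊆ V) (w : α → ℝ)
    (hw : ∀ x, 0 ≤ w x)
    (hc : ∀ x ∈ V, x ∈ G ∨ x ∈ B1 ∨ x ∈ B2 ∨ x ∈ B3 ∨ x ∈ B4 ∨ ∃ P ∈ S, x ∈ BS P) :
    ∑ᶠ x ∈ V, w x ≤ ∑ᶠ x ∈ G, w x + (∑ P ∈ S, ∑ᶠ x ∈ BS P, w x) + ∑ᶠ x ∈ B1, w x +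
      ∑ᶠ x ∈ B2, w x + ∑ᶠ x ∈ B3, w x + ∑ᶠ x ∈ B4, w x := by
  have key : ∀ T : Set α, T ⊆ V →
      ∑ᶠ x ∈ T, w x = ∑ x ∈ hV.toFinset, (if x ∈ T then w x else 0) := by
    intro T hT
    rw [finsum_mem_eq_finite_toFinset_sum _ (hV.subset hT), ← Finset.sum_filter]
    refine Finset.sum_congr ?_ (fun _ _ => rfl)
    ext x
    rw [Finset.mem_filter, Set.Finite.mem_toFinset, Set.Finite.mem_toFinset]
    exact ⟨fun h => ⟨hT h, h⟩, fun h => h.2⟩
  rw [key G hGV, key B1 h1V, key B2 h2V, key B3 h3V, key B4 h4V,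
    Finset.sum_congr rfl (fun P hP => key (BS P) (hBS P hP)), Finset.sum_comm,
    finsum_mem_eq_finite_toFinset_sum _ hV]
  rw [← Finset.sum_add_distrib, ← Finset.sum_add_distrib, ← Finset.sum_add_distrib,
    ← Finset.sum_add_distrib, ← Finset.sum_add_distrib]
  refine Finset.sum_le_sum (fun x hx => ?_)
  have hxV : x ∈ V := (Set.Finite.mem_toFinset _).1 hx
  have hi : ∀ T : Set α, 0 ≤ (if x ∈ T then w x else 0) := by
    intro T
    split_ifs
    · exact hw x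
    · exact le_rfl
  have hG0 := hi G
  have h10 := hi B1
  have h20 := hi B2
  have h30 := hi B3
  have h40 := hi B4
  have hS0 : 0 ≤ ∑ P ∈ S, (if x ∈ BS P then w x else 0) :=
    Finset.sum_nonneg (fun P _ => hi (BS P))
  rcases hc x hxV with h | h | h | h | h | ⟨P, hP, h⟩
  · have : (if x ∈ G then w x else 0) = w x := if_pos h
    linarith
  · have : (if x ∈ B1 then w x else 0) = w x := if_pos h
    linarith
  · have : (if x ∈ B2 then w x else 0) = w x := if_pos h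
    linarith
  · have : (if x ∈ B3 then w x else 0) = w x := if_pos h
    linarith
  · have : (if x ∈ B4 then w x else 0) = w x := if_pos h
    linarith
  · have h5 : w x ≤ ∑ P ∈ S, (if x ∈ BS P then w x else 0) := by
      have h6 : (if x ∈ BS P then w x else 0) = w x := if_pos h
      calc w x = (if x ∈ BS P then w x else 0) := h6.symm
        _ ≤ _ := Finset.single_le_sum (f := fun P => if x ∈ BS P then w x else 0)
            (fun Q _ => hi (BS Q)) hP
    linarith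

theorem fsum_bound {α : Type} {s : Set α} (hs : s.Finite) (w : α → ℝ) (W : ℝ)
    (hw : ∀ x, w x ≤ W) : ∑ᶠ x ∈ s, w x ≤ s.ncard * W := by
  refine (Pool.Agent.H28.AV3B.fsum_le hs w (fun _ => W) (fun x _ => hw x)).trans ?_
  rw [Pool.Agent.H28.AV3B.fsum_const hs]

theorem fsum_pos {α : Type} (p : α → Prop) [DecidablePred p] (w : α → ℝ) :
    ∑ᶠ x, (if p x then w x else 0) = ∑ᶠ x ∈ {x | p x}, w x := by
  classical
  rw [finsum_mem_def]
  refine finsum_congr (fun x => ?_)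
  by_cases h : p x
  · rw [if_pos h, Set.indicator_of_mem]
    exact h
  · rw [if_neg h, Set.indicator_of_notMem]
    exact h

end Cover

section Loc

variable {F : Type} [Field F] [Finite F]

omit [Finite F] in
theorem dvd_lft (M : F[X]) (c : Fin 10 → F[X]) :
    M ∣ dsc (Jc (hf F) fun i => AVS.lft (md M c i)) ↔ M ∣ dsc (Jc (hf F) c) := by
  have hmd : md M (fun i => AVS.lft (md M c i)) = md M c :=
    Pool.Agent.H19.AV3B.LVA.md_lft M (md M c)
  rw [← AdjoinRoot.mk_eq_zero, ← AdjoinRoot.mk_eq_zero, ← Pool.Agent.H19.AV3B.LVA.dsc_md3,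
    ← Pool.Agent.H19.AV3B.LVA.dsc_md3, Pool.Agent.H19.AV3B.LVA.md3_Jc,
    Pool.Agent.H19.AV3B.LVA.md3_Jc, hmd]

theorem WB3_le (hLVA : LVAStmt) (h2 : (2 : F) ≠ 0) (S : Finset F[X])
    (hS : ∀ P ∈ S, P.Monic ∧ Irreducible P) (N : ℕ) (hN : 1 ≤ N) (n α β : ℕ)
    (c : Fin 10 → F[X]) : WB3 n α β S N c ≤
      (∏ P ∈ S, (2 * (Nat.card F : ℝ) ^ (2 * P.natDegree))) *
        (2 * (Nat.card F : ℝ) ^ (2 * (X : F[X]).natDegree)) := by
  have hX := ((hLVA F h2 X monic_X irreducible_X).2 N hN (cinf n (dv α β) c)).2.2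
  have hP : ∀ P ∈ S, 0 ≤ wb P N c ∧ wb P N c ≤ 2 * (Nat.card F : ℝ) ^ (2 * P.natDegree) :=
    fun P hP => ((hLVA F h2 P (hS P hP).1 (hS P hP).2).2 N hN c).2.2
  refine mul_le_mul ?_ hX.2 hX.1 (by positivity)
  exact Finset.prod_le_prod (fun P hP' => (hP P hP').1) (fun P hP' => (hP P hP').2)

end Loc

end AVL3

open AVL3

open Classical in
theorem avl3_thm (hEQP : EQP3Stmt) (hLVC : LVCStmt) (hLVA : LVAStmt) (hLVB : LVBStmt)
    (hMDT : MDTStmt) (hTBL : TBL3Stmt) (hAZ : AZ3Stmt) : AVL3Stmt := by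
  intro F _ _ h2 ε hε
  have hq2 : 2 ≤ Nat.card F := by
    have := Finite.one_lt_card (α := F)
    omega
  set q : ℝ := (Nat.card F : ℝ) with hqdef
  have hq : 2 ≤ q := by
    rw [hqdef]
    exact_mod_cast hq2
  have hq0 : 0 < q := by linarith
  have hqi : 1 / q < 1 := by
    rw [div_lt_one hq0]
    linarith
  obtain ⟨D₀, hD₀⟩ := exists_pow_lt_of_lt_one (show 0 < ε / 12 by positivity) hqi
  have hD₀' : ∀ D : ℕ, D₀ ≤ D → 2 / q ^ D ≤ ε / 6 := by
    intro D hD
    have h1 : (1 / q) ^ D ≤ (1 / q) ^ D₀ := pow_le_pow_of_le_one (by positivity) hqi.le hD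
    have h3 : 2 / q ^ D = 2 * (1 / q) ^ D := by
      rw [one_div, inv_pow]
      ring
    rw [h3]
    linarith
  refine ⟨D₀, fun D hD S hS => ?_⟩
  have hS1 : ∀ P ∈ S, P.Monic ∧ Irreducible P := fun P hP =>
    ⟨((hS P).1 hP).1, ((hS P).1 hP).2.1⟩
  -- the constants
  set k : ℕ := S.card + 1 with hk
  set δ : ℝ := min 1 (ε / (6 * (k * 2 ^ k))) with hδdef
  have hk1 : (1 : ℝ) ≤ k := by
    rw [hk]
    push_cast
    have : (0 : ℝ) ≤ S.card := Nat.cast_nonneg _
    linarith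
  have h2k : (1 : ℝ) ≤ 2 ^ k := one_le_pow₀ (by norm_num)
  have hδ : 0 < δ := lt_min one_pos (by positivity)
  have hδ1 : δ ≤ 1 := min_le_left _ _
  have hδ2 : k * 2 ^ k * δ ≤ ε / 6 := by
    have h3 : δ ≤ ε / (6 * (k * 2 ^ k)) := min_le_right _ _
    calc k * 2 ^ k * δ ≤ k * 2 ^ k * (ε / (6 * (k * 2 ^ k))) :=
          mul_le_mul_of_nonneg_left h3 (by positivity)
      _ = ε / 6 := by field_simp
  have hδ3 : k * δ ≤ ε / 6 := by
    refine le_trans ?_ hδ2
    have h3 : (k : ℝ) * 1 ≤ k * 2 ^ k := mul_le_mul_of_nonneg_left h2k (by positivity)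
    have h4 := mul_le_mul_of_nonneg_right h3 hδ.le
    linarith
  have hL : ∀ P ∈ insert X S, ∃ N₀ : ℕ, ∀ N : ℕ, N₀ ≤ N →
      ((rhoF F P.natDegree - δ) * q ^ (10 * (N * P.natDegree)) ≤
        ∑ᶠ c : Fin 10 → AdjoinRoot (P ^ N), wb P N (fun i => AVS.lft (c i)) ∧
      ∑ᶠ c ∈ {c : Fin 10 → AdjoinRoot (P ^ N) |
          P ^ N ∣ dsc (Jc (hf F) fun i => AVS.lft (c i))}, wb P N (fun i => AVS.lft (c i)) ≤
        δ * q ^ (10 * (N * P.natDegree))) ∧
      ∑ᶠ c : Fin 10 → AdjoinRoot (P ^ N), wb P N (fun i => AVS.lft (c i)) ≤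
        (rhoF F P.natDegree + δ) * q ^ (10 * (N * P.natDegree)) := by
    intro P hP
    have hPm : P.Monic ∧ Irreducible P := by
      rw [Finset.mem_insert] at hP
      rcases hP with rfl | hP
      · exact ⟨monic_X, irreducible_X⟩
      · exact hS1 P hP
    obtain ⟨N1, hN1⟩ := hLVC F h2 P hPm.1 hPm.2 δ hδ
    obtain ⟨N2, hN2⟩ := hLVB F h2 P hPm.1 hPm.2 δ hδ
    exact ⟨max N1 N2, fun N hN => ⟨hN1 N ((le_max_left _ _).trans hN),
      (hN2 N ((le_max_right _ _).trans hN)).1⟩⟩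
  choose! N₀ hN₀ using hL
  obtain ⟨N3, hN3⟩ := hMDT F h2 S hS1
  set N : ℕ := max (max 1 N3) ((insert X S).sup N₀) with hNdef
  have hN : 1 ≤ N := (le_max_left _ _).trans (le_max_left _ _)
  have hNN3 : N3 ≤ N := (le_max_right _ _).trans (le_max_left _ _)
  have hNP := fun P (hP : P ∈ insert X S) =>
    hN₀ P hP N ((Finset.le_sup hP).trans (le_max_right _ _))
  refine ⟨N, hN, fun A => ?_⟩
  -- the bound of the weights
  set W : ℝ := (∏ P ∈ S, (2 * q ^ (2 * P.natDegree))) * (2 * q ^ (2 * (X : F[X]).natDegree))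
    with hWdef
  have hW0 : 0 < W := by positivity
  have hWle : ∀ n α β (c : Fin 10 → F[X]), WB3 n α β S N c ≤ W := fun n α β c =>
    WB3_le hLVA h2 S hS1 N hN n α β c
  have hWn : ∀ n α β (c : Fin 10 → F[X]), 0 ≤ WB3 n α β S N c := fun n α β c =>
    Pool.Agent.H28.AV3B.WB3_nonneg hLVA h2 S hS1 N hN n α β c
  set M : ℕ := N * (∑ P ∈ S, P.natDegree + 1) with hMdef
  -- large primes
  have hT : ∀ α β : ℕ, ∃ n₀ : ℕ, ∀ n : ℕ, n₀ ≤ n → ({c : Fin 10 → F[X] | c ∈ Vd n (dv α β) ∧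
      ∃ P : F[X], P.Monic ∧ Irreducible P ∧ n ≤ 2 * P.natDegree + (M + 3 * A) ∧
        P ^ 2 ∣ dsc (Jc (hf F) c)}.ncard : ℝ) ≤ ε / (6 * W) * q ^ (10 * n + 10) :=
    fun α β => hTBL F h2 α β (M + 3 * A) (ε / (6 * W)) (by positivity)
  choose nT hnT using hT
  obtain ⟨n4, hn4⟩ := exists_pow_lt_of_lt_one (show 0 < ε / (12 * W) by positivity) hqi
  refine ⟨max (max ((Finset.range (A + 1) ×ˢ Finset.range (A + 1)).sup
    (fun p => nT p.1 p.2)) n4) (M + 3 * A), fun n hn α β hα hβ => ?_⟩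
  have hn1 : nT α β ≤ n := by
    have h3 : nT α β ≤ (Finset.range (A + 1) ×ˢ Finset.range (A + 1)).sup
        (fun p => nT p.1 p.2) := by
      have h4 : (α, β) ∈ Finset.range (A + 1) ×ˢ Finset.range (A + 1) := by
        rw [Finset.mem_product, Finset.mem_range, Finset.mem_range]
        exact ⟨by omega, by omega⟩
      exact Finset.le_sup (f := fun p : ℕ × ℕ => nT p.1 p.2) h4
    exact h3.trans ((le_max_left _ _).trans ((le_max_left _ _).trans hn))
  have hn2 : n4 ≤ n := (le_max_right _ _).trans ((le_max_left _ _).trans hn)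
  have hn3 : M + 3 * A ≤ n := (le_max_right _ _).trans hn
  have hdeg : M + 2 * α + β ≤ n + 1 := by omega
  -- local facts
  have hXA := (hLVA F h2 X monic_X irreducible_X).2 N hN
  have hSA := fun P (hP : P ∈ S) => (hLVA F h2 P (hS1 P hP).1 (hS1 P hP).2).2 N hN
  have hrho0 : ∀ j : ℕ, 0 ≤ rhoF F j := by
    intro j
    unfold rhoF
    have hf0 : ∀ k : ℕ, 0 ≤ 1 - 1 / q ^ k := by
      intro k
      have h5 : 1 / q ^ k ≤ 1 := by
        rw [div_le_one (by positivity)]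
        exact one_le_pow₀ (by linarith)
      linarith
    exact mul_nonneg (hf0 _) (hf0 _)
  have hrho1 : ∀ j : ℕ, rhoF F j ≤ 1 := by
    intro j
    unfold rhoF
    have hf0 : ∀ k : ℕ, 0 ≤ 1 - 1 / q ^ k := by
      intro k
      have h5 : 1 / q ^ k ≤ 1 := by
        rw [div_le_one (by positivity)]
        exact one_le_pow₀ (by linarith)
      linarith
    have hf1 : ∀ k : ℕ, 1 - 1 / q ^ k ≤ 1 := by
      intro k
      have h5 : 0 ≤ 1 / q ^ k := by positivity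
      linarith
    exact mul_le_one₀ (hf1 _) (hf0 _) (hf1 _)
  set L : F[X] → ℝ := fun P => (∑ᶠ c : Fin 10 → AdjoinRoot (P ^ N),
    wb P N (fun i => AVS.lft (c i))) / q ^ (10 * (N * P.natDegree)) with hLdef
  set L' : F[X] → ℝ := fun P => (∑ᶠ c ∈ {c : Fin 10 → AdjoinRoot (P ^ N) |
          P ^ N ∣ dsc (Jc (hf F) fun i => AVS.lft (c i))}, wb P N (fun i => AVS.lft (c i))) /
            q ^ (10 * (N * P.natDegree)) with hL'def
  have hwb0 : ∀ P ∈ insert X S, ∀ c : Fin 10 → F[X], 0 ≤ wb P N c := by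
    intro P hP c
    rw [Finset.mem_insert] at hP
    rcases hP with rfl | hP
    · exact (hXA c).2.2.1
    · exact (hSA P hP c).2.2.1
  have hL0 : ∀ P ∈ insert X S, 0 ≤ L P := by
    intro P hP
    apply div_nonneg _ (by positivity)
    exact finsum_nonneg (fun c => hwb0 P hP _)
  have hL2 : ∀ P ∈ insert X S, L P ≤ 2 := by
    intro P hP
    rw [hLdef]
    simp only []
    rw [div_le_iff₀ (by positivity)]
    refine (hNP P hP).2.trans ?_
    apply mul_le_mul_of_nonneg_right _ (by positivity)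
    have := hrho1 P.natDegree
    linarith
  have hL1 : ∀ P ∈ insert X S, rhoF F P.natDegree - δ ≤ L P := by
    intro P hP
    rw [hLdef]
    simp only []
    rw [le_div_iff₀ (by positivity)]
    exact (hNP P hP).1.1
  have hL'0 : ∀ P ∈ insert X S, 0 ≤ L' P := by
    intro P hP
    apply div_nonneg _ (by positivity)
    exact finsum_nonneg (fun c => finsum_nonneg (fun _ => hwb0 P hP _))
  have hL'1 : ∀ P ∈ insert X S, L' P ≤ δ := by
    intro P hP
    rw [hL'def]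
    simp only []
    rw [div_le_iff₀ (by positivity)]
    exact (hNP P hP).1.2
  have hXm : (X : F[X]) ∈ insert X S := Finset.mem_insert_self _ _
  have hSm : ∀ P ∈ S, P ∈ insert X S := fun P hP => Finset.mem_insert_of_mem hP
  have hLX : (∑ᶠ c : Fin 10 → AdjoinRoot ((X : F[X]) ^ N), wb X N (fun i => AVS.lft (c i))) /
      q ^ (10 * N) = L X := by
    rw [hLdef]
    simp only []
    rw [natDegree_X, mul_one]
  have hL'X : (∑ᶠ c ∈ {c : Fin 10 → AdjoinRoot ((X : F[X]) ^ N) |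
          X ^ N ∣ dsc (Jc (hf F) fun i => AVS.lft (c i))}, wb X N (fun i => AVS.lft (c i))) /
      q ^ (10 * N) = L' X := by
    rw [hL'def]
    simp only []
    rw [natDegree_X, mul_one]
  have hQ0 : 0 < q ^ (10 * n + 10) := by positivity
  -- the total
  obtain ⟨hfin, htot⟩ := Pool.Agent.H28.AV3B.gen hEQP (fun P c => wb P N c)
    (fun c => wb X N c) S N hN hS1 (fun P hP c => (hSA P hP c).1) (fun c => (hXA c).1) n α β hdeg
  have htotal : (rhoS S - k * δ) * q ^ (10 * n + 10) ≤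
      ∑ᶠ c ∈ (Vd n (dv α β) : Set (Fin 10 → F[X])), WB3 n α β S N c := by
    have h3 : ∑ᶠ c ∈ (Vd n (dv α β) : Set (Fin 10 → F[X])), WB3 n α β S N c =
      ∑ᶠ c ∈ (Vd n (dv α β) : Set (Fin 10 → F[X])),
        (∏ P ∈ S, wb P N c) * wb X N (cinf n (dv α β) c) := rfl
    rw [h3, htot, hLX, mul_assoc, mul_comm]
    apply mul_le_mul_of_nonneg_left _ hQ0.le
    have h4 := prod_lower S (fun P => rhoF F P.natDegree) L δ hδ.le
      (fun P _ => hrho0 _) (fun P _ => hrho1 _) (fun P hP => hL0 P (hSm P hP))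
      (fun P hP => hL1 P (hSm P hP))
    set x := ∏ P ∈ S, rhoF F P.natDegree with hx
    have hx0 : 0 ≤ x := Finset.prod_nonneg (fun P _ => hrho0 _)
    have hx1 : x ≤ 1 := Finset.prod_le_one (fun P _ => hrho0 _) (fun P _ => hrho1 _)
    have h5 := two_lower x (∏ P ∈ S, L P) (rhoF F 1) (L X) S.card δ hδ.le (Nat.cast_nonneg _)
      hx0 hx1 (Finset.prod_nonneg (fun P hP => hL0 P (hSm P hP))) h4 (hrho0 1) (hrho1 1)
      (hL0 X hXm) (by
        have := hL1 X hXm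
        rwa [natDegree_X] at this)
    have h6 : rhoS S - k * δ = rhoF F 1 * x - ((S.card : ℝ) + 1) * δ := by
      unfold rhoS
      rw [hk]
      push_cast
      ring
    rw [h6]
    refine h5.trans (le_of_eq ?_)
    rw [mul_comm]
  -- the bad sets of the primes of S
  have hbadP : ∀ P₀ ∈ S, ∑ᶠ c ∈ {c : Fin 10 → F[X] | c ∈ Vd n (dv α β) ∧
      P₀ ^ N ∣ dsc (Jc (hf F) c)}, WB3 n α β S N c ≤ δ * 2 ^ k * q ^ (10 * n + 10) := by
    intro P₀ hP₀
    obtain ⟨_, h⟩ := Pool.Agent.H28.AV3B.gen hEQP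
      (fun P c => if P = P₀ → P ^ N ∣ dsc (Jc (hf F) c) then wb P N c else 0)
      (fun c => wb X N c) S N hN hS1
      (fun P hP c => by
        have h6 := (hSA P hP c).1
        have h7 : (P = P₀ → P ^ N ∣ dsc (Jc (hf F) fun i => AVS.lft (md (P ^ N) c i))) ↔
            (P = P₀ → P ^ N ∣ dsc (Jc (hf F) c)) := by
          rw [dvd_lft (P ^ N) c]
        by_cases h8 : P = P₀ → P ^ N ∣ dsc (Jc (hf F) c)
        · rw [if_pos h8, if_pos (h7.2 h8), h6]
        · rw [if_neg h8, if_neg (fun h9 => h8 (h7.1 h9))])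
      (fun c => (hXA c).1) n α β hdeg
    have h3 : ∑ᶠ c ∈ {c : Fin 10 → F[X] | c ∈ Vd n (dv α β) ∧
        P₀ ^ N ∣ dsc (Jc (hf F) c)}, WB3 n α β S N c =
      ∑ᶠ c ∈ (Vd n (dv α β) : Set (Fin 10 → F[X])),
        (∏ P ∈ S, if P = P₀ → P ^ N ∣ dsc (Jc (hf F) c) then wb P N c else 0) *
          wb X N (cinf n (dv α β) c) := by
      rw [Pool.Agent.H28.AV3B.fsum_if hfin]
      refine finsum_mem_congr rfl (fun c _ => ?_)
      by_cases h9 : P₀ ^ N ∣ dsc (Jc (hf F) c)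
      · rw [if_pos h9]
        unfold WB3
        congr 1
        refine Finset.prod_congr rfl (fun P hP => ?_)
        rw [if_pos]
        intro h10
        rw [h10]
        exact h9
      · rw [if_neg h9]
        have h11 : (∏ P ∈ S, if P = P₀ → P ^ N ∣ dsc (Jc (hf F) c) then wb P N c else 0) = 0 := by
          refine Finset.prod_eq_zero hP₀ (if_neg ?_)
          intro h12
          exact h9 (h12 rfl)
        rw [h11, zero_mul]
    rw [h3, h, hLX, mul_assoc, mul_comm]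
    apply mul_le_mul_of_nonneg_right _ hQ0.le
    have h4 : ∏ P ∈ S, (∑ᶠ c : Fin 10 → AdjoinRoot (P ^ N),
        if P = P₀ → P ^ N ∣ dsc (Jc (hf F) fun i => AVS.lft (c i)) then
          wb P N (fun i => AVS.lft (c i)) else 0) / q ^ (10 * (N * P.natDegree)) ≤
        δ * 2 ^ S.card := by
      have h40 : ∀ P ∈ S, P ≠ P₀ → (∑ᶠ c : Fin 10 → AdjoinRoot (P ^ N),
        if P = P₀ → P ^ N ∣ dsc (Jc (hf F) fun i => AVS.lft (c i)) then
          wb P N (fun i => AVS.lft (c i)) else 0) / q ^ (10 * (N * P.natDegree)) = L P := by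
        intro P hP hne
        rw [hLdef]
        simp only []
        congr 1
        refine finsum_congr (fun c => ?_)
        rw [if_pos]
        intro h
        exact absurd h hne
      have h41 : (∑ᶠ c : Fin 10 → AdjoinRoot (P₀ ^ N),
        if P₀ = P₀ → P₀ ^ N ∣ dsc (Jc (hf F) fun i => AVS.lft (c i)) then
          wb P₀ N (fun i => AVS.lft (c i)) else 0) / q ^ (10 * (N * P₀.natDegree)) = L' P₀ := by
        rw [hL'def]
        simp only []
        congr 1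
        rw [← fsum_pos]
        refine finsum_congr (fun c => ?_)
        simp only [forall_const]
      refine prod_one_small S P₀ hP₀ _ δ (fun P hP => ?_) (fun P hP => ?_) ?_
      · by_cases hne : P = P₀
        · subst hne
          rw [h41]
          exact hL'0 P (hSm P hP)
        · rw [h40 P hP hne]
          exact hL0 P (hSm P hP)
      · by_cases hne : P = P₀
        · subst hne
          rw [h41]
          exact (hL'1 P (hSm P hP)).trans (hδ1.trans (by norm_num))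
        · rw [h40 P hP hne]
          exact hL2 P (hSm P hP)
      · rw [h41]
        exact hL'1 P₀ (hSm P₀ hP₀)
    calc _ ≤ δ * 2 ^ S.card * 2 :=
          mul_le_mul h4 (hL2 X hXm) (hL0 X hXm) (by positivity)
      _ = δ * 2 ^ k := by
          rw [hk, pow_succ]
          ring
  -- the bad set at infinity
  have hbadX : ∑ᶠ c ∈ {c : Fin 10 → F[X] | c ∈ Vd n (dv α β) ∧
      X ^ N ∣ dsc (Jc (hf F) (cinf n (dv α β) c))}, WB3 n α β S N c ≤
        δ * 2 ^ k * q ^ (10 * n + 10) := by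
    obtain ⟨_, h⟩ := Pool.Agent.H28.AV3B.gen hEQP (fun P c => wb P N c)
      (fun c => if X ^ N ∣ dsc (Jc (hf F) c) then wb X N c else 0) S N hN hS1
      (fun P hP c => (hSA P hP c).1)
      (fun c => by
        have h6 := (hXA c).1
        have h7 := dvd_lft ((X : F[X]) ^ N) c
        by_cases h8 : X ^ N ∣ dsc (Jc (hf F) c)
        · rw [if_pos h8, if_pos (h7.2 h8), h6]
        · rw [if_neg h8, if_neg (fun h9 => h8 (h7.1 h9))]) n α β hdeg
    have h3 : ∑ᶠ c ∈ {c : Fin 10 → F[X] | c ∈ Vd n (dv α β) ∧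
        X ^ N ∣ dsc (Jc (hf F) (cinf n (dv α β) c))}, WB3 n α β S N c =
      ∑ᶠ c ∈ (Vd n (dv α β) : Set (Fin 10 → F[X])), (∏ P ∈ S, wb P N c) *
          (if X ^ N ∣ dsc (Jc (hf F) (cinf n (dv α β) c)) then
            wb X N (cinf n (dv α β) c) else 0) := by
      rw [Pool.Agent.H28.AV3B.fsum_if hfin]
      refine finsum_mem_congr rfl (fun c _ => ?_)
      by_cases h9 : X ^ N ∣ dsc (Jc (hf F) (cinf n (dv α β) c))
      · rw [if_pos h9, if_pos h9]
        rfl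
      · rw [if_neg h9, if_neg h9, mul_zero]
    rw [h3, h, fsum_pos, hL'X, mul_assoc, mul_comm]
    apply mul_le_mul_of_nonneg_right _ hQ0.le
    have h4 : ∏ P ∈ S, L P ≤ 2 ^ S.card :=
      prod_le_two _ _ (fun P hP => hL0 P (hSm P hP)) (fun P hP => hL2 P (hSm P hP))
    calc _ ≤ 2 ^ S.card * δ :=
          mul_le_mul h4 (hL'1 X hXm) (hL'0 X hXm) (by positivity)
      _ ≤ δ * 2 ^ k := by
          rw [hk, pow_succ]
          have h5 : (0 : ℝ) < 2 ^ S.card := by positivity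
          nlinarith
  -- medium primes
  have hmed := hN3 N hNN3 D n α β
  set Bm : Set (Fin 10 → F[X]) := {c : Fin 10 → F[X] | c ∈ Vd n (dv α β) ∧
    ∃ P : F[X], P.Monic ∧ Irreducible P ∧ P ∉ S ∧ D < P.natDegree ∧
      2 * P.natDegree + N * (∑ P ∈ S, P.natDegree + 1) + 2 * α + β ≤ n + 1 ∧
        P ^ 2 ∣ dsc (Jc (hf F) c)} with hBm
  -- large primes
  have hlar := hnT α β n hn1
  set Bl : Set (Fin 10 → F[X]) := {c : Fin 10 → F[X] | c ∈ Vd n (dv α β) ∧
    ∃ P : F[X], P.Monic ∧ Irreducible P ∧ n ≤ 2 * P.natDegree + (M + 3 * A) ∧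
      P ^ 2 ∣ dsc (Jc (hf F) c)} with hBl
  have hBlfin : Bl.Finite := hfin.subset (fun c hc => hc.1)
  have hlar2 : ∑ᶠ c ∈ Bl, WB3 n α β S N c ≤ ε / 6 * q ^ (10 * n + 10) := by
    refine (fsum_bound hBlfin _ W (hWle n α β)).trans ?_
    calc (Bl.ncard : ℝ) * W ≤ (ε / (6 * W) * q ^ (10 * n + 10)) * W :=
          mul_le_mul_of_nonneg_right hlar hW0.le
      _ = ε / 6 * q ^ (10 * n + 10) := by field_simp
  -- vanishing first coefficient
  have haz := (hAZ F h2 n α β (by omega)).2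
  set Ba : Set (Fin 10 → F[X]) := {c : Fin 10 → F[X] | c ∈ Vd n (dv α β) ∧
    (Jc (hf F) c).1 = 0} with hBa
  have hBafin : Ba.Finite := hfin.subset (fun c hc => hc.1)
  have haz2 : ∑ᶠ c ∈ Ba, WB3 n α β S N c ≤ ε / 6 * q ^ (10 * n + 10) := by
    refine (fsum_bound hBafin _ W (hWle n α β)).trans ?_
    have h5 : (Ba.ncard : ℝ) ≤ 2 * q ^ (9 * n + 9) := by
      rw [hqdef]
      exact_mod_cast haz
    have h6 : 2 * q ^ (9 * n + 9) * W ≤ ε / 6 * q ^ (10 * n + 10) := by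
      have h7 : (1 / q) ^ (n + 1) ≤ (1 / q) ^ n4 :=
        pow_le_pow_of_le_one (by positivity) hqi.le (by omega)
      have h8 : (1 / q) ^ (n + 1) < ε / (12 * W) := lt_of_le_of_lt h7 hn4
      have h9 : q ^ (9 * n + 9) = (1 / q) ^ (n + 1) * q ^ (10 * n + 10) := by
        have h10 : q ^ (10 * n + 10) = q ^ (n + 1) * q ^ (9 * n + 9) := by
          rw [← pow_add]
          congr 1
          ring
        rw [h10, ← mul_assoc, ← mul_pow, one_div, inv_mul_cancel₀ hq0.ne', one_pow, one_mul]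
      rw [h9]
      calc 2 * ((1 / q) ^ (n + 1) * q ^ (10 * n + 10)) * W =
            (2 * W * (1 / q) ^ (n + 1)) * q ^ (10 * n + 10) := by ring
        _ ≤ (2 * W * (ε / (12 * W))) * q ^ (10 * n + 10) := by
            apply mul_le_mul_of_nonneg_right _ hQ0.le
            exact mul_le_mul_of_nonneg_left h8.le (by positivity)
        _ = ε / 6 * q ^ (10 * n + 10) := by
            field_simp
            ring
    exact (mul_le_mul_of_nonneg_right h5 hW0.le).trans h6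
  -- covering
  have hcov := cover (Vd n (dv α β) : Set (Fin 10 → F[X])) (GdC n α β N S)
    {c : Fin 10 → F[X] | c ∈ Vd n (dv α β) ∧ X ^ N ∣ dsc (Jc (hf F) (cinf n (dv α β) c))}
    Bm Bl Ba hfin (fun c hc => hc.1) (fun c hc => hc.1) (fun c hc => hc.1) (fun c hc => hc.1)
    (fun c hc => hc.1) S
    (fun P => {c : Fin 10 → F[X] | c ∈ Vd n (dv α β) ∧ P ^ N ∣ dsc (Jc (hf F) c)})
    (fun P _ c hc => hc.1) (WB3 n α β S N) (hWn n α β)
    (by
      intro c hc
      by_cases h1 : ∃ P ∈ S, P ^ N ∣ dsc (Jc (hf F) c)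
      · obtain ⟨P, hP, h⟩ := h1
        exact Or.inr (Or.inr (Or.inr (Or.inr (Or.inr ⟨P, hP, hc, h⟩))))
      by_cases h3 : X ^ N ∣ dsc (Jc (hf F) (cinf n (dv α β) c))
      · exact Or.inr (Or.inl ⟨hc, h3⟩)
      by_cases h4 : (Jc (hf F) c).1 = 0
      · exact Or.inr (Or.inr (Or.inr (Or.inr (Or.inl ⟨hc, h4⟩))))
      by_cases h5 : ∃ P : F[X], P.Monic ∧ Irreducible P ∧ P ∉ S ∧ P ^ 2 ∣ dsc (Jc (hf F) c)
      · obtain ⟨P, hPm, hPi, hPS, hPd⟩ := h5
        have hdP : D < P.natDegree := by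
          by_contra h6
          exact hPS ((hS P).2 ⟨hPm, hPi, by omega⟩)
        by_cases h7 : 2 * P.natDegree + N * (∑ P ∈ S, P.natDegree + 1) + 2 * α + β ≤ n + 1
        · exact Or.inr (Or.inr (Or.inl ⟨hc, P, hPm, hPi, hPS, hdP, h7, hPd⟩))
        · refine Or.inr (Or.inr (Or.inr (Or.inl ⟨hc, P, hPm, hPi, ?_, hPd⟩)))
          rw [← hMdef] at h7
          omega
      · left
        refine ⟨hc, fun P hP h => h1 ⟨P, hP, h⟩, h3, fun P hPm hPi hPS h => h5
          ⟨P, hPm, hPi, hPS, h⟩, Or.inr h4⟩)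
  have hsumP : ∑ P ∈ S, ∑ᶠ c ∈ {c : Fin 10 → F[X] | c ∈ Vd n (dv α β) ∧
      P ^ N ∣ dsc (Jc (hf F) c)}, WB3 n α β S N c ≤
        S.card * (δ * 2 ^ k * q ^ (10 * n + 10)) := by
    refine (Finset.sum_le_sum hbadP).trans ?_
    rw [Finset.sum_const, nsmul_eq_mul]
  have hmed2 : 2 / q ^ D * q ^ (10 * n + 10) ≤ ε / 6 * q ^ (10 * n + 10) :=
    mul_le_mul_of_nonneg_right (hD₀' D hD) hQ0.le
  have hk2 : (S.card : ℝ) * (δ * 2 ^ k * q ^ (10 * n + 10)) + δ * 2 ^ k * q ^ (10 * n + 10) ≤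
      ε / 6 * q ^ (10 * n + 10) := by
    have e : (S.card : ℝ) * (δ * 2 ^ k * q ^ (10 * n + 10)) + δ * 2 ^ k * q ^ (10 * n + 10) =
        (k * 2 ^ k * δ) * q ^ (10 * n + 10) := by
      rw [hk]
      push_cast
      ring
    rw [e]
    exact mul_le_mul_of_nonneg_right hδ2 hQ0.le
  have hk3 : k * δ * q ^ (10 * n + 10) ≤ ε / 6 * q ^ (10 * n + 10) :=
    mul_le_mul_of_nonneg_right hδ3 hQ0.le
  have hεQ : 0 < ε * q ^ (10 * n + 10) := by positivity
  have hfinal : (rhoS S - ε) * q ^ (10 * n + 10) ≤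
      ∑ᶠ c ∈ (GdC n α β N S : Set (Fin 10 → F[X])), WB3 n α β S N c := by
    have h1 := htotal
    have h2 := hcov
    have h3 := hbadX
    linarith
  exact hfinal

end Pool.Agent.H98.AV3C
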