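import Pool.Agent.H8.AV3.Stmts7
import Pool.Agent.H28.AV3B.LMU3
import Pool.Agent.H87.AVR.ST3

/-!
# AV3C, module LML3: the lower bound for the average
-/

set_option autoImplicit false

namespace Pool.Agent.H98.AV3C

open Polynomial Matrix Pool.AVR Pool.AV3

section Sums

theorem swap3 {ι : Type} (A : ℕ) (G : Set ι) (hG : G.Finite) (x : ι → ℕ → ℕ → ℝ)
    (g : ℕ → ℕ → ℝ) :
    ∑ᶠ f ∈ G, ∑ α ∈ Finset.range (A + 1), ∑ β ∈ Finset.range (A + 1), x f α β / g α β =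
      ∑ α ∈ Finset.range (A + 1), ∑ β ∈ Finset.range (A + 1), (∑ᶠ f ∈ G, x f α β) / g α β :=
  Pool.Agent.H28.AV3B.swap2 A G hG x g

/-- Splitting off a subset. -/
theorem fsum_split {α : Type} {s t : Set α} (ht : t.Finite) (hst : s ⊆ t) (w : α → ℝ)
    (v : α → ℝ) (h1 : ∀ x ∈ t, 1 ≤ w x) (h2 : ∀ x ∈ s, v x ≤ w x - 1) :
    (t.ncard : ℝ) + ∑ᶠ x ∈ s, v x ≤ ∑ᶠ x ∈ t, w x := by
  classical
  have hs : s.Finite := ht.subset hst
  rw [finsum_mem_eq_finite_toFinset_sum _ hs, finsum_mem_eq_finite_toFinset_sum _ ht,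
    Set.ncard_eq_toFinset_card _ ht]
  have hsub : hs.toFinset ⊆ ht.toFinset := by
    intro x hx
    rw [Set.Finite.mem_toFinset] at hx ⊢
    exact hst hx
  have e1 : ∑ x ∈ hs.toFinset, v x ≤ ∑ x ∈ hs.toFinset, (w x - 1) :=
    Finset.sum_le_sum (fun x hx => h2 x ((Set.Finite.mem_toFinset _).1 hx))
  have e2 : ∑ x ∈ hs.toFinset, (w x - 1) ≤ ∑ x ∈ ht.toFinset, (w x - 1) := by
    refine Finset.sum_le_sum_of_subset_of_nonneg hsub (fun x hx _ => ?_)
    have := h1 x ((Set.Finite.mem_toFinset _).1 hx)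
    linarith
  have e3 : ∑ x ∈ ht.toFinset, (w x - 1) = ∑ x ∈ ht.toFinset, w x - ht.toFinset.card := by
    rw [Finset.sum_sub_distrib, Finset.sum_const, nsmul_eq_mul, mul_one]
  linarith

end Sums

section Final

/-- The final inequality. -/
theorem fin_ineq (ε ρ0 ρ K Ec T T8 G : ℝ) (hε : 0 < ε) (hε1 : ε ≤ 1) (hρ0 : 0 < ρ0)
    (hρ1 : ρ0 ≤ 1) (hρ : ρ0 ≤ ρ) (hG0 : 0 ≤ G)
    (hT8 : 0 ≤ T8) (hT : 0 ≤ T) (hG : (3 / ρ0 - ε / 4) * T ≤ G * T8) (hE : Ec ≤ T)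
    (hK : (ρ - ρ0 * ε / 16) * (G * T8) ≤ K) : (4 - ε) * Ec ≤ Ec + K := by
  have h1 : (ρ0 - ρ0 * ε / 16) * ((3 / ρ0 - ε / 4) * T) ≤ (ρ - ρ0 * ε / 16) * (G * T8) := by
    have h2 : 0 ≤ ρ0 - ρ0 * ε / 16 := by nlinarith
    have h3 : ρ0 - ρ0 * ε / 16 ≤ ρ - ρ0 * ε / 16 := by linarith
    calc (ρ0 - ρ0 * ε / 16) * ((3 / ρ0 - ε / 4) * T) ≤ (ρ0 - ρ0 * ε / 16) * (G * T8) :=
          mul_le_mul_of_nonneg_left hG h2
      _ ≤ _ := mul_le_mul_of_nonneg_right h3 (mul_nonneg hG0 hT8)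
  have h4 : (3 - ε) * T ≤ (ρ0 - ρ0 * ε / 16) * ((3 / ρ0 - ε / 4) * T) := by
    have e : (ρ0 - ρ0 * ε / 16) * ((3 / ρ0 - ε / 4) * T) =
        ((1 - ε / 16) * (3 - ε / 4 * ρ0)) * T := by
      field_simp
    rw [e]
    apply mul_le_mul_of_nonneg_right _ hT
    have h5 : ε / 4 * ρ0 ≤ ε / 4 := by nlinarith
    nlinarith
  have h6 : (3 - ε) * Ec ≤ (3 - ε) * T := mul_le_mul_of_nonneg_left hE (by linarith)
  linarith

end Final

open Classical in
theorem lml3_thm (hWLS : WLSStmt) (hNTR : NTRStmt) (hSUE : SUEStmt) (hAVL : AVL3Stmt)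
    (hMTL : MTLStmt) (hZE4 : ZE4Stmt) (hELN : ELNStmt) (hWCT : WCTStmt) (hST9 : ST9Stmt)
    (hSEC : SECStmt) (hLVA : LVAStmt) : LML3Stmt := by
  intro F _ _ h2 ε0 hε0
  set ε : ℝ := min ε0 1 with hεdef
  have hε : 0 < ε := lt_min hε0 one_pos
  have hε1 : ε ≤ 1 := min_le_right _ _
  have hεε : ε ≤ ε0 := min_le_left _ _
  have hq3 := Pool.AVR.ST2.three_le h2
  set q : ℝ := (Nat.card F : ℝ) with hqdef
  have hq : 3 ≤ q := by
    rw [hqdef]
    exact_mod_cast hq3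
  have hq0 : 0 < q := by linarith
  have hq1 : 0 < q - 1 := by linarith
  have hfp : ∀ k : ℕ, 1 ≤ k → 0 < 1 - 1 / q ^ k := by
    intro k hk
    have h5 : 1 / q ^ k < 1 := by
      rw [div_lt_one (by positivity)]
      exact one_lt_pow₀ (by linarith) (by omega)
    linarith
  have hf1 : ∀ k : ℕ, 1 - 1 / q ^ k ≤ 1 := by
    intro k
    have h5 : 0 ≤ 1 / q ^ k := by positivity
    linarith
  set r1 : ℝ := rhoF F 1 with hr1
  have hr10 : 0 < r1 := by
    rw [hr1]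
    unfold rhoF
    exact mul_pos (hfp _ (by norm_num)) (hfp _ (by norm_num))
  have hr11 : r1 ≤ 1 := by
    rw [hr1]
    unfold rhoF
    exact mul_le_one₀ (hf1 _) (hfp _ (by norm_num)).le (hf1 _)
  set ρ0 : ℝ := (1 - 1 / q) * (1 - 1 / q ^ 2) * r1 with hρ0def
  have ha0 : 0 < 1 - 1 / q := by
    have := hfp 1 le_rfl
    rwa [pow_one] at this
  have ha1 : 1 - 1 / q ≤ 1 := by
    have := hf1 1
    rwa [pow_one] at this
  have hρ0 : 0 < ρ0 := by
    rw [hρ0def]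
    exact mul_pos (mul_pos ha0 (hfp 2 (by norm_num))) hr10
  have hρ1 : ρ0 ≤ 1 := by
    rw [hρ0def]
    exact mul_le_one₀ (mul_le_one₀ ha1 (hfp 2 (by norm_num)).le (hf1 2)) hr10.le hr11
  -- the constants
  obtain ⟨A, hA⟩ := hMTL F h2 (ε / 4) (by positivity)
  obtain ⟨D₀, hD₀⟩ := hAVL F h2 (ρ0 * ε / 16) (by positivity)
  set D : ℕ := max D₀ 7776 with hD
  obtain ⟨S0, hS01, hS02⟩ := Pool.AVR.ST3.primes_fin F D
  set S : Finset F[X] := S0.filter (fun P => P.natDegree ≤ D) with hSdef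
  have hSiff : ∀ P : F[X], P ∈ S ↔ P.Monic ∧ Irreducible P ∧ P.natDegree ≤ D := by
    intro P
    rw [hSdef, Finset.mem_filter]
    constructor
    · rintro ⟨h, hd⟩
      exact ⟨(hS01 P h).1, (hS01 P h).2, hd⟩
    · rintro ⟨h, hi, hd⟩
      exact ⟨hS02 P h hi hd, hd⟩
  have hS1 : ∀ P ∈ S, P.Monic ∧ Irreducible P := fun P hP =>
    ⟨((hSiff P).1 hP).1, ((hSiff P).1 hP).2.1⟩
  have hS3 : ∀ P : F[X], P.Monic → Irreducible P → P ∉ S → 7776 < Nat.card F ^ P.natDegree := by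
    intro P hP hPi hPS
    have h3 : ¬ P.natDegree ≤ D := fun h => hPS ((hSiff P).2 ⟨hP, hPi, h⟩)
    have h4 : 7776 ≤ D := le_max_right _ _
    have h5 : P.natDegree < Nat.card F ^ P.natDegree := Nat.lt_pow_self (by omega)
    omega
  obtain ⟨N, hN, hN1⟩ := hD₀ D (le_max_left _ _) S hSiff
  obtain ⟨n₁, hn₁⟩ := hN1 A
  obtain ⟨n₂, hn₂⟩ := hNTR F h2 A N S hS1
  refine ⟨max (max n₁ n₂) (max A 1), fun n hn => ?_⟩
  have hnn1 : n₁ ≤ n := (le_max_left _ _).trans ((le_max_left _ _).trans hn)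
  have hnn2 : n₂ ≤ n := (le_max_right _ _).trans ((le_max_left _ _).trans hn)
  have hnA : A ≤ n := (le_max_left _ _).trans ((le_max_right _ _).trans hn)
  have hn1 : 1 ≤ n := (le_max_right _ _).trans ((le_max_right _ _).trans hn)
  obtain ⟨hEllfin, _, hElc, _, _⟩ := hELN F h2 n hn1
  have hElfin : (El F n).Finite := hEllfin.subset (fun f hf => hf.1)
  have hGE : GdF (F := F) n N S ⊆ El F n := fun f hf => hf.1
  have hGfin : (GdF (F := F) n N S).Finite := hElfin.subset hGE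
  have hSfin : ∀ f ∈ El F n, Finite (Sel3 f) := fun f hf =>
    (hWCT F h2 n N 9 S f hf hN hS1 (hST9 F h2 n f hf)).1
  have hWn : ∀ α β (c : Fin 10 → F[X]), 0 ≤ WB3 n α β S N c := fun α β c =>
    Pool.Agent.H28.AV3B.WB3_nonneg hLVA h2 S hS1 N hN n α β c
  -- lower bound for each curve
  have hge1 : ∀ f ∈ El F n, (1 : ℝ) ≤ (Nat.card (Sel3 f) : ℝ) := by
    intro f hf
    have := hSfin f hf
    have hd : dsc f ≠ 0 := hf.1.2
    have hne : Nonempty (Sel3 f) :=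
      ⟨Quotient.mk (selSetoid f) ⟨_, (hSEC F h2 f).2.2 0 hd⟩⟩
    have : 1 ≤ Nat.card (Sel3 f) := Nat.card_pos
    exact_mod_cast this
  set V : F[X] × F[X] × F[X] → ℝ := fun f => (q - 1) *
      ∑ α ∈ Finset.range (A + 1), ∑ β ∈ Finset.range (A + 1),
        (∑ᶠ c ∈ VJ n (dv α β) f, WB3 n α β S N c) /
          ((G3 (dv α β) : Set (Matrix (Fin 3) (Fin 3) F[X])).ncard : ℝ) with hV
  have hVle : ∀ f ∈ GdF (F := F) n N S, V f ≤ (Nat.card (Sel3 f) : ℝ) - 1 := by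
    intro f hf
    have h3 := hWLS F h2 n N A S f hf hN hnA hS1 hS3 (hSfin f (hGE hf))
    refine le_trans (le_of_eq ?_) h3
    rw [hV]
    simp only []
    congr 1
    refine Finset.sum_congr rfl (fun α hα => ?_)
    refine Finset.sum_congr rfl (fun β hβ => ?_)
    congr 1
    have hset : {c | c ∈ VJ n (dv α β) f ∧ ¬ Tri f c} = VJ n (dv α β) f := by
      ext c
      constructor
      · rintro ⟨h, _⟩
        exact h
      · intro h
        refine ⟨h, hn₂ n hnn2 f hf α β ?_ ?_ c h⟩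
        · have := Finset.mem_range.1 hα
          omega
        · have := Finset.mem_range.1 hβ
          omega
    rw [hset]
  have hsplit := fsum_split hElfin hGE (fun f => (Nat.card (Sel3 f) : ℝ)) V hge1 hVle
  -- the sum over the good curves
  have hVs : ∑ᶠ f ∈ GdF (F := F) n N S, V f = (q - 1) *
      ∑ α ∈ Finset.range (A + 1), ∑ β ∈ Finset.range (A + 1),
        (∑ᶠ f ∈ GdF (F := F) n N S, ∑ᶠ c ∈ VJ n (dv α β) f, WB3 n α β S N c) /
          ((G3 (dv α β) : Set (Matrix (Fin 3) (Fin 3) F[X])).ncard : ℝ) := by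
    rw [hV, Pool.Agent.H28.AV3B.fsum_mul hGfin]
    congr 1
    exact swap3 A (GdF (F := F) n N S) hGfin
      (fun f α β => ∑ᶠ c ∈ VJ n (dv α β) f, WB3 n α β S N c)
      (fun α β => ((G3 (dv α β) : Set (Matrix (Fin 3) (Fin 3) F[X])).ncard : ℝ))
  have e11 : q ^ (12 * n + 11) = q ^ (2 * n + 1) * q ^ (10 * n + 10) := by
    rw [← pow_add]
    congr 1
    ring
  set G : ℝ := (q - 1) * (∑ α ∈ Finset.range (A + 1), ∑ β ∈ Finset.range (A + 1),
      1 / ((G3 (dv α β) : Set (Matrix (Fin 3) (Fin 3) F[X])).ncard : ℝ)) with hGdef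
  have hlow : (rhoS S - ρ0 * ε / 16) * (G * q ^ (12 * n + 11)) ≤
      ∑ᶠ f ∈ GdF (F := F) n N S, V f := by
    rw [hVs, hGdef]
    have e12 : (rhoS S - ρ0 * ε / 16) * (((q - 1) * (∑ α ∈ Finset.range (A + 1),
        ∑ β ∈ Finset.range (A + 1),
        1 / ((G3 (dv α β) : Set (Matrix (Fin 3) (Fin 3) F[X])).ncard : ℝ))) *
          q ^ (12 * n + 11)) = (q - 1) * (∑ α ∈ Finset.range (A + 1),
        ∑ β ∈ Finset.range (A + 1), (q ^ (2 * n + 1) * ((rhoS S - ρ0 * ε / 16) *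
          q ^ (10 * n + 10))) *
          (1 / ((G3 (dv α β) : Set (Matrix (Fin 3) (Fin 3) F[X])).ncard : ℝ))) := by
      simp only [← Finset.mul_sum]
      rw [e11]
      ring
    rw [e12]
    apply mul_le_mul_of_nonneg_left _ hq1.le
    refine Finset.sum_le_sum (fun α hα => ?_)
    refine Finset.sum_le_sum (fun β hβ => ?_)
    have hαA : α ≤ A := by
      have := Finset.mem_range.1 hα
      omega
    have hβA : β ≤ A := by
      have := Finset.mem_range.1 hβ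
      omega
    have h5 := hn₁ n hnn1 α β hαA hβA
    have h6 := hSUE F h2 n α β N S (hαA.trans hnA) (hβA.trans hnA) hS1
    rw [mul_one_div]
    apply div_le_div_of_nonneg_right _ (Nat.cast_nonneg _)
    refine le_trans ?_ h6
    exact mul_le_mul_of_nonneg_left h5 (by positivity)
  have hG0 : 0 ≤ G := by
    rw [hGdef]
    apply mul_nonneg hq1.le
    apply Finset.sum_nonneg
    intro α _
    apply Finset.sum_nonneg
    intro β _
    positivity
  have hGm := hA n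
  have hρS : ρ0 ≤ rhoS S := hZE4 F S hS1
  have hEc : ((El F n).ncard : ℝ) ≤ q ^ (12 * n + 3) := by
    rw [hqdef]
    exact_mod_cast hElc
  have hfin := fin_ineq ε ρ0 (rhoS S) (∑ᶠ f ∈ GdF (F := F) n N S, V f) ((El F n).ncard : ℝ)
    (q ^ (12 * n + 3)) (q ^ (12 * n + 11)) G hε hε1 hρ0 hρ1 hρS hG0 (by positivity)
    (by positivity) hGm hEc hlow
  calc (4 - ε0) * ((El F n).ncard : ℝ) ≤ (4 - ε) * ((El F n).ncard : ℝ) :=
        mul_le_mul_of_nonneg_right (by linarith) (Nat.cast_nonneg _)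
    _ ≤ _ := hfin
    _ ≤ _ := hsplit

end Pool.Agent.H98.AV3C
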